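import Pool.Agent.N437.SQ.Stm

set_option autoImplicit false

/-!
# Project SQ (helper437), part F1: counting functions with prescribed values
-/

namespace Pool.Agent.N329.SQ

open Finset

/-- the theorem -/
theorem t_F1 : Pool.Agent.N437.SQ.S_F1 := by
  intro α Ω _ _ _ _ A G
  have h : ((univ : Finset (α → Ω)).filter fun φ => ∀ a ∈ A, φ a ∈ G) =
      Fintype.piFinset (fun a => if a ∈ A then G else univ) := by
    ext φ
    simp only [mem_filter, mem_univ, true_and, Fintype.mem_piFinset]
    constructor
    · intro H a
      by_cases ha : a ∈ A
      · simp [ha, H a ha]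
      · simp [ha]
    · intro H a ha
      have := H a
      simpa [ha] using this
  rw [h, Fintype.card_piFinset]
  have h2 : ∀ a : α, (if a ∈ A then G else (univ : Finset Ω)).card =
      if a ∈ A then G.card else Fintype.card Ω := by
    intro a
    by_cases ha : a ∈ A
    · simp [ha]
    · simp [ha]
  rw [Finset.prod_congr rfl (fun a _ => h2 a), Finset.prod_ite]
  rw [Finset.prod_const, Finset.prod_const]
  congr 2
  · congr 1
    ext a
    simp
  · have h3 : (univ.filter fun a => a ∉ A) = Aᶜ := by
      ext a
      simp
    rw [h3, Finset.card_compl]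

end Pool.Agent.N329.SQ
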